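import Pool.Agent.Q234.ShR
import Pool.Agent.H141R2.FS.Main1

/-!
# Four squares and the numbers `p + h_1, p + h_2, p + h_3`: all but few triples of shifts, arbitrary dense sets

Q1 asks for a representation `n = x² + y² + z² + w²` for which `p = x + 2 y + 5 z` and `p - 2`, `p + 4`, `p + 10` are
primes. Here the three shifts `-2, 4, 10` are replaced by ALL triples of integers `|h_i| ≤ 2 X`, `X = ⌊√(30 n)⌋`, with
at most `K X ^ 2` exceptions (out of `(4 X + 1) ^ 3`).

Let `S` be ANY set of primes `p` with `29 n ≤ p² ≤ 30 n` and at least `δ X / log X` elements. For all triples with at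
most `K X ^ 2` exceptions, at least `κ |S|` elements `p` of `S` are values of `x + 2 y + 5 z` at a representation of
`n` as a sum of four squares, and all three numbers `p + h_i` are, up to a factor at most `X ^ ε`, primes or products
of two primes larger than `X ^ (1 / 7)`. Here `κ > 0` and `K` depend on `δ` and `ε` only.

This is an application of the theorem `Pool.Agent.W23.DC.dense_almost_prime` of the starting files, and of the
starting result that all `p` coprime to `30` with `29 n ≤ p² ≤ 30 n` are values (`Pool.Agent.H141R2.FS.rep`).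
-/

set_option autoImplicit false

open Finset

namespace Pool.Agent.Results.MP_40574a_nt.FewExceptionalTriples

/-- `p` is the value of `x + 2 y + 5 z` at a representation of `n` as a sum of four squares of natural numbers. -/
def Val (n p : ℕ) : Prop :=
  ∃ x y z w : ℕ, n = x ^ 2 + y ^ 2 + z ^ 2 + w ^ 2 ∧ p = x + 2 * y + 5 * z

/-- `|a| = m s`, where `m ≤ X ^ ε` and `s > 1` has at most two prime factors (counted with multiplicity), all of them
larger than `X ^ (1 / 7)`. -/
def Almost (ε : ℝ) (X : ℕ) (a : ℤ) : Prop :=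
  ∃ m s : ℕ, a.natAbs = m * s ∧ (m : ℝ) ≤ (X : ℝ) ^ ε ∧ 1 < s ∧
    s.primeFactorsList.length ≤ 2 ∧ ∀ l ∈ s.primeFactors, (X : ℝ) ^ (1 / 7 : ℝ) < l

open Classical in
/-- The `p` in `S` which are values at a representation of `n` such that all `p + h_i` have this property. -/
noncomputable def good (ε : ℝ) (n X : ℕ) (S : Finset ℕ) (h : Fin 3 → ℤ) : Finset ℕ :=
  S.filter (fun p => Val n p ∧ ∀ i, Almost ε X (p + h i))

open Classical in
/-- The triples of integers `|h_i| ≤ 2 X` with fewer than `κ |S|` such `p`. -/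
noncomputable def exceptions (ε κ : ℝ) (n X : ℕ) (S : Finset ℕ) : Finset (Fin 3 → ℤ) :=
  (Fintype.piFinset fun _ => Icc (-(2 * X : ℤ)) (2 * X)).filter (fun h => ((good ε n X S h).card : ℝ) < κ * S.card)

/-- **All but few triples of shifts.** -/
theorem result : ∀ δ ε : ℝ, 0 < δ → 0 < ε → ∃ (κ : ℝ) (K : ℕ), 0 < κ ∧ ∀ n : ℕ, 30 ≤ n → ¬ 4 ∣ n →
    ∀ X : ℕ, X = Nat.sqrt (30 * n) → ∀ S : Finset ℕ, (∀ p ∈ S, p.Prime ∧ 29 * n ≤ p ^ 2 ∧ p ^ 2 ≤ 30 * n) →
      δ * X / Real.log X ≤ S.card → (exceptions ε κ n X S).card ≤ K * X ^ 2 := by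
  classical
  intro δ ε hδ hε
  obtain ⟨κ, K, hκ, h⟩ := Pool.Agent.Q234.ShR.multi ε hε 3 δ hδ
  refine ⟨κ, 375 * K, hκ, fun n hn h4 X hX S hS hSc => ?_⟩
  have hX2 : 2 ≤ X := by
    rw [hX, Nat.le_sqrt]
    omega
  have hX1 : (1 : ℝ) ≤ X := by exact_mod_cast (by omega : 1 ≤ X)
  have h1 := h (fun _ => X) (fun _ => hX2) (fun _ p => p) S (fun _ p hp => by
    obtain ⟨a1, a2, a3⟩ := hS p hp
    refine ⟨a1, ?_⟩
    show p ≤ X
    rw [hX, Nat.le_sqrt, ← pow_two]
    exact a3) (fun _ => Function.injective_id.injOn) (fun _ => hSc)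
  have h2 : ((exceptions ε κ n X S).card : ℝ) ≤ K * (∑ _i : Fin 3, 1 / (X : ℝ)) * ∏ _i : Fin 3, (4 * (X : ℝ) + 1) := by
    refine le_trans ?_ h1
    apply Nat.cast_le.2
    apply card_le_card
    intro t ht
    unfold exceptions at ht
    rw [mem_filter] at ht ⊢
    refine ⟨ht.1, lt_of_le_of_lt ?_ ht.2⟩
    apply Nat.cast_le.2
    apply card_le_card
    intro p hp
    unfold good
    rw [mem_filter] at hp ⊢
    refine ⟨hp.1, ?_, hp.2⟩
    obtain ⟨a1, a2, a3⟩ := hS p hp.1
    have hc : Nat.Coprime p 30 := by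
      rw [Nat.Prime.coprime_iff_not_dvd a1]
      intro hd
      have h5 : p ≤ 30 := Nat.le_of_dvd (by norm_num) hd
      have h6 : p ∣ 2 * (3 * 5) := by simpa using hd
      have h7 : p ≤ 5 := by
        rcases (Nat.Prime.dvd_mul a1).1 h6 with h9 | h9
        · have := Nat.le_of_dvd (by norm_num) h9
          omega
        · rcases (Nat.Prime.dvd_mul a1).1 h9 with h9 | h9
          · have := Nat.le_of_dvd (by norm_num) h9
            omega
          · have := Nat.le_of_dvd (by norm_num) h9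
            omega
      nlinarith
    obtain ⟨x, y, z, w, b1, b2⟩ := Pool.Agent.H141R2.FS.rep h4 hc a2 a3
    exact ⟨x, y, z, w, b1, b2.symm⟩
  have h3 : (K : ℝ) * (∑ _i : Fin 3, 1 / (X : ℝ)) * ∏ _i : Fin 3, (4 * (X : ℝ) + 1) ≤ ((375 * K * X ^ 2 : ℕ) : ℝ) := by
    rw [sum_const, prod_const, card_univ, Fintype.card_fin, nsmul_eq_mul]
    push_cast
    have e1 : (4 * (X : ℝ) + 1) ^ 3 ≤ (5 * X) ^ 3 := pow_le_pow_left₀ (by positivity) (by linarith) 3
    have e2 : (K : ℝ) * (3 * (1 / (X : ℝ))) * (5 * X) ^ 3 = 375 * K * X ^ 2 := by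
      have : (X : ℝ) ≠ 0 := by positivity
      field_simp
      ring
    rw [← e2]
    exact mul_le_mul_of_nonneg_left e1 (by positivity)
  exact_mod_cast h2.trans h3

end Pool.Agent.Results.MP_40574a_nt.FewExceptionalTriples
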