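import Pool.Agent.Results.MP_6a20cc_nt.NarrowProgressions
import Pool.Agent.H141R2.FS.Main1

set_option autoImplicit false

/-!
# Narrow progressions of values of the linear form which start a prime quadruple

Q1 asks for a representation `n = x² + y² + z² + w²` such that for `p = x + 2 y + 5 z` the numbers `p - 2`, `p`,
`p + 4`, `p + 10` are primes. Let `n` be large and not divisible by `4`. For an ARBITRARY set `S` of such `p` (for
instance the set of all of them) all elements of `S` in a window `(X, X + Y]` between `√(29 n)` and `√(30 n)`,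
`Y ≥ n ^ θ`, with at most `ε Y / (log n) ^ 4` exceptions, are terms of `l`-term arithmetic progressions contained in
`S ∩ (X, X + Y]` with difference at most a fixed power of `log n`. The same holds if the four numbers only have no
small prime factor, and the window contains at least `κ Y / (log n) ^ 4` values of this kind which have at most `r`
prime factors.
-/

namespace Pool.Agent.Results.MP_40574a_nt.NarrowProgressions

open Finset Filter

/-- `p` is the value of `x + 2 y + 5 z` at a representation of `n` as a sum of four squares of natural numbers -/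
def Val (n p : ℕ) : Prop :=
  ∃ x y z w : ℕ, n = x ^ 2 + y ^ 2 + z ^ 2 + w ^ 2 ∧ p = x + 2 * y + 5 * z

/-- `p` is the value of the linear form at an admissible representation of `n` -/
def Admissible (n p : ℕ) : Prop :=
  Val n p ∧ 2 < p ∧ (p - 2).Prime ∧ p.Prime ∧ (p + 4).Prime ∧ (p + 10).Prime

/-- `p > 2` is a value of the linear form and all prime factors of `p - 2`, `p`, `p + 4`, `p + 10` are larger than
`p ^ (1 / r)` -/
def Rough (r n p : ℕ) : Prop :=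
  Val n p ∧ 2 < p ∧ ∀ q : ℕ, q.Prime → (q ∣ p - 2 ∨ q ∣ p ∨ q ∣ p + 4 ∨ q ∣ p + 10) → (p : ℝ) ^ (1 / (r : ℝ)) < q

/-- `p` is a term of an `l`-term arithmetic progression contained in `S ∩ (u, v]`, with difference at most `D` -/
def OnProgression (S : Set ℕ) (l : ℕ) (D : ℝ) (u v p : ℕ) : Prop :=
  ∃ m d : ℕ, 1 ≤ d ∧ (d : ℝ) ≤ D ∧ (∀ i < l, m + i * d ∈ S ∧ u < m + i * d ∧ m + i * d ≤ v) ∧ ∃ i < l, p = m + i * d

/-- all elements of `S` in `(u, v]` with at most `t` exceptions are terms of such progressions -/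
def NearlyAll (S : Set ℕ) (l : ℕ) (D : ℝ) (u v : ℕ) (t : ℝ) : Prop :=
  ({p : ℕ | u < p ∧ p ≤ v ∧ p ∈ S ∧ ¬ OnProgression S l D u v p}.ncard : ℝ) ≤ t

/-- the slopes -/
def fa : Fin 4 → ℤ := ![1, 1, 1, 1]

/-- the constants -/
def fb : Fin 4 → ℤ := ![-2, 0, 4, 10]

lemma adm : Pool.Agent.Results.MP_6a20cc_nt.NarrowProgressions.Admissible fa fb := by
  refine ⟨by decide, by decide, ?_⟩
  intro p hp
  by_cases h5 : p = 5 ∨ p = 11
  · refine ⟨3, ?_⟩
    rcases h5 with rfl | rfl <;> decide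
  · refine ⟨1, ?_⟩
    push Not at h5
    have key : ∀ m : ℕ, m.Prime ∨ m = 1 → p ≠ m → ∀ z : ℤ, z.natAbs = m → ¬ (p : ℤ) ∣ z := by
      intro m hm hpm z hz hd
      have h1 : p ∣ m := by
        rw [← hz]
        exact Int.natCast_dvd.1 hd
      rcases hm with hm | rfl
      · exact hpm ((Nat.prime_dvd_prime_iff_eq hp hm).1 h1)
      · exact hp.one_lt.ne' (Nat.dvd_one.1 h1)
    intro i
    fin_cases i
    · exact key 1 (Or.inr rfl) hp.one_lt.ne' _ (by decide)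
    · exact key 1 (Or.inr rfl) hp.one_lt.ne' _ (by decide)
    · exact key 5 (Or.inl (by norm_num)) h5.1 _ (by decide)
    · exact key 11 (Or.inl (by norm_num)) h5.2 _ (by decide)

lemma val_eq (p : ℕ) (hp : 2 < p) :
    (fa 0 * (p : ℤ) + fb 0 = ((p - 2 : ℕ) : ℤ)) ∧ (fa 1 * (p : ℤ) + fb 1 = ((p : ℕ) : ℤ)) ∧
    (fa 2 * (p : ℤ) + fb 2 = ((p + 4 : ℕ) : ℤ)) ∧ (fa 3 * (p : ℤ) + fb 3 = ((p + 10 : ℕ) : ℤ)) := by
  refine ⟨?_, ?_, ?_, ?_⟩ <;> simp [fa, fb]
  omega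

lemma prime_of (n p : ℕ) (h : Admissible n p) (i : Fin 4) : (fa i * (p : ℤ) + fb i).natAbs.Prime := by
  obtain ⟨-, h0, h1, h2, h3, h4⟩ := h
  obtain ⟨e1, e2, e3, e4⟩ := val_eq p h0
  fin_cases i
  · show (fa 0 * (p : ℤ) + fb 0).natAbs.Prime
    rw [e1, Int.natAbs_natCast]; exact h1
  · show (fa 1 * (p : ℤ) + fb 1).natAbs.Prime
    rw [e2, Int.natAbs_natCast]; exact h2
  · show (fa 2 * (p : ℤ) + fb 2).natAbs.Prime
    rw [e3, Int.natAbs_natCast]; exact h3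
  · show (fa 3 * (p : ℤ) + fb 3).natAbs.Prime
    rw [e4, Int.natAbs_natCast]; exact h4

lemma rough_of (r n p : ℕ) (h : Rough r n p) :
    Pool.Agent.Results.MP_6a20cc_nt.NarrowProgressions.Rough fa fb r p := by
  obtain ⟨-, h0, h1⟩ := h
  obtain ⟨e1, e2, e3, e4⟩ := val_eq p h0
  intro i q hq hd
  apply h1 q hq
  fin_cases i
  · change (q : ℤ) ∣ fa 0 * (p : ℤ) + fb 0 at hd
    rw [e1, Int.natCast_dvd_natCast] at hd; exact Or.inl hd
  · change (q : ℤ) ∣ fa 1 * (p : ℤ) + fb 1 at hd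
    rw [e2, Int.natCast_dvd_natCast] at hd; exact Or.inr (Or.inl hd)
  · change (q : ℤ) ∣ fa 2 * (p : ℤ) + fb 2 at hd
    rw [e3, Int.natCast_dvd_natCast] at hd; exact Or.inr (Or.inr (Or.inl hd))
  · change (q : ℤ) ∣ fa 3 * (p : ℤ) + fb 3 at hd
    rw [e4, Int.natCast_dvd_natCast] at hd; exact Or.inr (Or.inr (Or.inr hd))

/-- conversely, in the window all rough numbers are values -/
lemma of_rough {r n p : ℕ} (h4 : ¬ 4 ∣ n) (h0 : 2 < p) (h1 : 29 * n ≤ p ^ 2) (h2 : p ^ 2 ≤ 30 * n)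
    (h30 : (5 : ℝ) ≤ (p : ℝ) ^ (1 / (r : ℝ)))
    (h : Pool.Agent.Results.MP_6a20cc_nt.NarrowProgressions.Rough fa fb r p) : Rough r n p := by
  obtain ⟨e1, e2, e3, e4⟩ := val_eq p h0
  have h5 : ∀ q : ℕ, q.Prime → (q ∣ p - 2 ∨ q ∣ p ∨ q ∣ p + 4 ∨ q ∣ p + 10) → (p : ℝ) ^ (1 / (r : ℝ)) < q := by
    intro q hq hd
    rcases hd with hd | hd | hd | hd
    · exact h 0 q hq (by rw [e1]; exact Int.natCast_dvd_natCast.2 hd)
    · exact h 1 q hq (by rw [e2]; exact Int.natCast_dvd_natCast.2 hd)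
    · exact h 2 q hq (by rw [e3]; exact Int.natCast_dvd_natCast.2 hd)
    · exact h 3 q hq (by rw [e4]; exact Int.natCast_dvd_natCast.2 hd)
  have hc : Nat.Coprime p 30 := by
    apply Nat.Coprime.symm
    rw [Nat.coprime_iff_gcd_eq_one]
    by_contra hne
    obtain ⟨q, hq, hq1, hq2⟩ := Nat.Prime.not_coprime_iff_dvd.1 hne
    have h6 := lt_of_le_of_lt h30 (h5 q hq (Or.inr (Or.inl hq2)))
    have h7 : 5 < q := by exact_mod_cast h6
    have h8 : q ∣ 2 * (3 * 5) := by simpa using hq1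
    rcases (Nat.Prime.dvd_mul hq).1 h8 with h9 | h9
    · have := Nat.le_of_dvd (by norm_num) h9
      omega
    · rcases (Nat.Prime.dvd_mul hq).1 h9 with h9 | h9
      · have := Nat.le_of_dvd (by norm_num) h9
        omega
      · have := Nat.le_of_dvd (by norm_num) h9
        omega
  obtain ⟨x, y, z, w, h3, h6⟩ := Pool.Agent.H141R2.FS.rep h4 hc h1 h2
  exact ⟨⟨x, y, z, w, h3, h6.symm⟩, h0, h5⟩

/-- a property of all large `X` holds in the window of all large `n` -/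
lemma transfer {P : ℕ → Prop} (h : ∀ᶠ X : ℕ in atTop, P X) :
    ∀ᶠ n : ℕ in atTop, ∀ X : ℕ, 29 * n ≤ X ^ 2 → P X := by
  obtain ⟨X0, hX0⟩ := eventually_atTop.1 h
  filter_upwards [eventually_ge_atTop (X0 ^ 2)] with n hn X hX
  apply hX0
  have h1 : X0 ^ 2 ≤ X ^ 2 := by omega
  exact (Nat.pow_le_pow_iff_left (by norm_num)).1 h1

lemma win {θ : ℝ} (hθ : 0 < θ) {n X Y : ℕ} (hn : 30 ≤ n) (hX : 29 * n ≤ X ^ 2) (hXY : (X + Y) ^ 2 ≤ 30 * n)
    (hY : (n : ℝ) ^ θ ≤ Y) : (X : ℝ) ^ θ ≤ Y ∧ 2 * Y ≤ X ∧ X ≤ n := by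
  have h0 : X ^ 2 ≤ n ^ 2 := by
    calc X ^ 2 ≤ (X + Y) ^ 2 := Nat.pow_le_pow_left (by omega) 2
      _ ≤ 30 * n := hXY
      _ ≤ n * n := Nat.mul_le_mul_right n hn
      _ = n ^ 2 := by ring
  have h1 : X ≤ n := (Nat.pow_le_pow_iff_left (by norm_num)).1 h0
  refine ⟨?_, ?_, h1⟩
  · refine le_trans ?_ hY
    exact Real.rpow_le_rpow (Nat.cast_nonneg _) (by exact_mod_cast h1) hθ.le
  · by_contra hcon
    push Not at hcon
    nlinarith

lemma logs {n X : ℕ} (hn : 30 ≤ n) (hX : 29 * n ≤ X ^ 2) (hXn : X ≤ n) :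
    0 < Real.log X ∧ Real.log X ≤ Real.log n ∧ Real.log n ≤ 2 * Real.log X := by
  have hX2 : 2 ≤ X := by
    by_contra hcon
    push Not at hcon
    nlinarith
  have hXr : (2 : ℝ) ≤ X := by exact_mod_cast hX2
  refine ⟨Real.log_pos (by linarith), Real.log_le_log (by linarith) (by exact_mod_cast hXn), ?_⟩
  have h1 : (n : ℝ) ≤ (X : ℝ) ^ 2 := by exact_mod_cast (by omega : n ≤ X ^ 2)
  have h2 : Real.log n ≤ Real.log ((X : ℝ) ^ 2) := Real.log_le_log (by exact_mod_cast (by omega : 0 < n)) h1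
  rw [Real.log_pow] at h2
  push_cast at h2
  exact h2

lemma up {n X Y : ℕ} {ε : ℝ} (hε : 0 < ε) (h : 0 < Real.log X ∧ Real.log X ≤ Real.log n ∧ Real.log n ≤ 2 * Real.log X) :
    ε / 16 * (Y / Real.log X ^ 4) ≤ ε * (Y / Real.log n ^ 4) := by
  obtain ⟨h0, h1, h2⟩ := h
  have h3 : Real.log n ^ 4 ≤ 16 * Real.log X ^ 4 := by
    calc Real.log n ^ 4 ≤ (2 * Real.log X) ^ 4 := pow_le_pow_left₀ (h0.le.trans h1) h2 4
      _ = 16 * Real.log X ^ 4 := by ring
  have h4 : (Y : ℝ) / Real.log X ^ 4 ≤ 16 * (Y / Real.log n ^ 4) := by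
    rw [div_le_iff₀ (by positivity)]
    have h5 : 0 < Real.log n ^ 4 := pow_pos (h0.trans_le h1) 4
    have h6 : 16 * ((Y : ℝ) / Real.log n ^ 4) * Real.log X ^ 4 = Y * (16 * Real.log X ^ 4 / Real.log n ^ 4) := by
      field_simp
    rw [h6]
    have h7 : 1 ≤ 16 * Real.log X ^ 4 / Real.log n ^ 4 := by rwa [one_le_div h5]
    have h8 : (0 : ℝ) ≤ Y := Nat.cast_nonneg _
    nlinarith
  calc ε / 16 * (Y / Real.log X ^ 4) ≤ ε / 16 * (16 * (Y / Real.log n ^ 4)) :=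
        mul_le_mul_of_nonneg_left h4 (by positivity)
    _ = ε * (Y / Real.log n ^ 4) := by ring

lemma nearly_mono {S : Set ℕ} {l : ℕ} {D D' : ℝ} {u v : ℕ} {t t' : ℝ} (hD : D ≤ D') (ht : t ≤ t')
    (h : Pool.Agent.Results.MP_6a20cc_nt.NarrowProgressions.NearlyAll S l D u v t) : NearlyAll S l D' u v t' := by
  unfold Pool.Agent.Results.MP_6a20cc_nt.NarrowProgressions.NearlyAll at h
  unfold NearlyAll
  refine le_trans ?_ (h.trans ht)
  rw [Nat.cast_le]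
  apply Set.ncard_le_ncard
  · rintro p ⟨h1, h2, h3, h4⟩
    refine ⟨h1, h2, h3, fun h5 => h4 ?_⟩
    obtain ⟨m, d, g1, g2, g3, g4⟩ := h5
    exact ⟨m, d, g1, g2.trans hD, g3, g4⟩
  · exact (Set.finite_Ioc u v).subset fun p hp => ⟨hp.1, hp.2.1⟩

lemma cnt {r p : ℕ} (hp : 2 < p) (h : ∀ i, (fa i * (p : ℤ) + fb i).natAbs.primeFactorsList.length ≤ r) :
    ∀ m ∈ ({p - 2, p, p + 4, p + 10} : Finset ℕ), m.primeFactorsList.length ≤ r := by
  obtain ⟨e1, e2, e3, e4⟩ := val_eq p hp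
  intro m hm
  simp only [mem_insert, mem_singleton] at hm
  rcases hm with rfl | rfl | rfl | rfl
  · have := h 0
    rwa [e1, Int.natAbs_natCast] at this
  · have := h 1
    rwa [e2, Int.natAbs_natCast] at this
  · have := h 2
    rwa [e3, Int.natAbs_natCast] at this
  · have := h 3
    rwa [e4, Int.natAbs_natCast] at this

/-- **Narrow progressions of values of the linear form which start a prime quadruple.** -/
theorem result (θ : ℝ) (hθ : 0 < θ) (hθ1 : θ ≤ 1) :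
    -- admissible representations
    (∀ l : ℕ, 2 ≤ l → ∀ ε : ℝ, 0 < ε → ∃ B : ℕ, ∀ᶠ n : ℕ in atTop, ∀ X Y : ℕ, 29 * n ≤ X ^ 2 →
      (X + Y) ^ 2 ≤ 30 * n → (n : ℝ) ^ θ ≤ Y → ∀ S : Set ℕ, (∀ p ∈ S, Admissible n p) →
        NearlyAll S l (Real.log n ^ B) X (X + Y) (ε * (Y / Real.log n ^ 4))) ∧
    -- representations for which the four numbers have no small prime factor
    (∀ r : ℕ, 2 ≤ r → ∀ l : ℕ, 2 ≤ l → ∀ ε : ℝ, 0 < ε → ∃ B : ℕ, ∀ᶠ n : ℕ in atTop, ∀ X Y : ℕ, 29 * n ≤ X ^ 2 →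
      (X + Y) ^ 2 ≤ 30 * n → (n : ℝ) ^ θ ≤ Y → ∀ S : Set ℕ, (∀ p ∈ S, Rough r n p) →
        NearlyAll S l (Real.log n ^ B) X (X + Y) (ε * (Y / Real.log n ^ 4))) ∧
    -- there are many of them, with a bounded number of prime factors
    ∃ r₀ : ℕ, ∀ r : ℕ, r₀ ≤ r → ∃ κ : ℝ, 0 < κ ∧ ∀ᶠ n : ℕ in atTop, ¬ 4 ∣ n → ∀ X Y : ℕ, 29 * n ≤ X ^ 2 →
      (X + Y) ^ 2 ≤ 30 * n → (n : ℝ) ^ θ ≤ Y →
      κ * (Y / Real.log n ^ 4) ≤ ({p : ℕ | X < p ∧ p ≤ X + Y ∧ Rough r n p ∧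
        ∀ m ∈ ({p - 2, p, p + 4, p + 10} : Finset ℕ), m.primeFactorsList.length ≤ r}.ncard : ℝ) := by
  obtain ⟨h1, h2, r₀, h3⟩ := Pool.Agent.Results.MP_6a20cc_nt.NarrowProgressions.result 4 (by norm_num) fa fb adm θ hθ hθ1
  refine ⟨?_, ?_, max r₀ 1, ?_⟩
  · intro l hl ε hε
    obtain ⟨B, hB⟩ := h1 l hl (ε / 16) (by positivity)
    refine ⟨B, ?_⟩
    filter_upwards [transfer hB, eventually_ge_atTop 30] with n hn hn30 X Y hX hXY hY S hS
    obtain ⟨w1, w2, w3⟩ := win hθ hn30 hX hXY hY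
    have hl3 := logs hn30 hX w3
    exact nearly_mono (pow_le_pow_left₀ hl3.1.le hl3.2.1 B) (up hε hl3)
      (hn X hX Y w1 (by omega) S fun p hp i => prime_of n p (hS p hp) i)
  · intro r hr l hl ε hε
    obtain ⟨B, hB⟩ := h2 r hr l hl (ε / 16) (by positivity)
    refine ⟨B, ?_⟩
    filter_upwards [transfer hB, eventually_ge_atTop 30] with n hn hn30 X Y hX hXY hY S hS
    obtain ⟨w1, w2, w3⟩ := win hθ hn30 hX hXY hY
    have hl3 := logs hn30 hX w3
    exact nearly_mono (pow_le_pow_left₀ hl3.1.le hl3.2.1 B) (up hε hl3)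
      (hn X hX Y w1 (by omega) S fun p hp => rough_of r n p (hS p hp))
  · intro r hr
    obtain ⟨κ, hκ, h⟩ := h3 r ((le_max_left _ _).trans hr)
    have hr1 : 1 ≤ r := (le_max_right _ _).trans hr
    refine ⟨κ, hκ, ?_⟩
    have hbig : ∀ᶠ X : ℕ in atTop, (5 : ℝ) ≤ (X : ℝ) ^ (1 / (r : ℝ)) := by
      have ht : Tendsto (fun X : ℕ => (X : ℝ) ^ (1 / (r : ℝ))) atTop atTop :=
        (tendsto_rpow_atTop (by positivity)).comp tendsto_natCast_atTop_atTop
      exact ht.eventually_ge_atTop 5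
    filter_upwards [transfer h, transfer hbig, eventually_ge_atTop 30] with n hn hb hn30 h4 X Y hX hXY hY
    obtain ⟨w1, w2, w3⟩ := win hθ hn30 hX hXY hY
    obtain ⟨l1, l2, l3⟩ := logs hn30 hX w3
    have g1 := hn X hX Y w1 (by omega)
    have g2 : κ * (Y / Real.log n ^ 4) ≤ κ * (Y / Real.log X ^ 4) := by
      apply mul_le_mul_of_nonneg_left _ hκ.le
      apply div_le_div_of_nonneg_left (Nat.cast_nonneg _) (by positivity)
      exact pow_le_pow_left₀ l1.le l2 4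
    refine g2.trans (g1.trans ?_)
    rw [Nat.cast_le]
    apply Set.ncard_le_ncard
    · rintro p ⟨a1, a2, a3, a4⟩
      have hp : 2 < p := by nlinarith
      have e1 : 29 * n ≤ p ^ 2 := hX.trans (Nat.pow_le_pow_left a1.le 2)
      have e2 : p ^ 2 ≤ 30 * n := (Nat.pow_le_pow_left a2 2).trans hXY
      exact ⟨a1, a2, of_rough h4 hp e1 e2 (hb p e1) a3, cnt hp a4⟩
    · exact (Set.finite_Ioc X (X + Y)).subset fun p hp => ⟨hp.1, hp.2.1⟩

end Pool.Agent.Results.MP_40574a_nt.NarrowProgressions
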