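import Pool.Agent.Results.MP_6a20cc_nt.RegularPoints
import Pool.Agent.H141R2.FS.Main1

set_option autoImplicit false

/-!
# Regular points of arbitrary sets of values of the linear form which start a prime quadruple

Q1 asks for a representation `n = x² + y² + z² + w²` such that for `p = x + 2 y + 5 z` the numbers `p - 2`, `p`,
`p + 4`, `p + 10` are primes. Let `n` be large and not divisible by `4` and `A` an ARBITRARY set of such `p` (for
instance the set of all of them), or of values `p` for which the four numbers have no small prime factor. In every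
window `(X, X + Y]`, `Y ≥ n ^ θ`, between `√(29 n)` and `√(30 n)`, all but `ε Y / (log X) ^ 4` of the elements of `A`
are regular points of `A`: the numbers of elements of `A` in ALL intervals around the point of length between
`(log X) ^ 4 / c` and `Y` have the expected order of magnitude, and `A` has constant density up to `δ` on both sides of
the point at all but `B (ε, δ)` dyadic scales. The window contains at least `κ Y / (log X) ^ 4` values for which the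
four numbers have at most `r` prime factors, all of them large.
-/

namespace Pool.Agent.Results.MP_40574a_nt.RegularPoints

open Finset Filter

/-- `p` is the value of `x + 2 y + 5 z` at a representation of `n` as a sum of four squares of natural numbers -/
def Val (n p : ℕ) : Prop :=
  ∃ x y z w : ℕ, n = x ^ 2 + y ^ 2 + z ^ 2 + w ^ 2 ∧ p = x + 2 * y + 5 * z

/-- `p` is the value of the linear form at an admissible representation of `n` -/
def Admissible (n p : ℕ) : Prop :=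
  Val n p ∧ 2 < p ∧ (p - 2).Prime ∧ p.Prime ∧ (p + 4).Prime ∧ (p + 10).Prime

/-- `p > 2` is a value of the linear form and all prime factors of `p - 2`, `p`, `p + 4`, `p + 10` are larger than
`p ^ (1 / r)` -/
def Rough (r n p : ℕ) : Prop :=
  Val n p ∧ 2 < p ∧ ∀ q : ℕ, q.Prime → (q ∣ p - 2 ∨ q ∣ p ∨ q ∣ p + 4 ∨ q ∣ p + 10) → (p : ℝ) ^ (1 / (r : ℝ)) < q

open Classical in
/-- the number of the elements of `A` in `(u, v]` -/
noncomputable def N (A : Set ℕ) (u v : ℕ) : ℕ := ((Ioc u v).filter (fun m => m ∈ A)).card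

/-- All intervals `(p - s, p + t]` with `s, t ≤ Y` of length at least `(log X) ^ 4 / c` contain the right order of
elements of `A`. -/
def RightOrder (A : Set ℕ) (c : ℝ) (X Y p : ℕ) : Prop :=
  ∀ s t : ℕ, s ≤ Y → t ≤ Y → Real.log X ^ 4 ≤ c * (s + t) →
    c * (s + t) / Real.log X ^ 4 ≤ N A (p - s) (p + t) ∧
      (N A (p - s) (p + t) : ℝ) ≤ (s + t) / (c * Real.log X ^ 4)

/-- Up to `δ`, `A` has a constant density on both sides of `p` up to the distance `2 ^ j`. -/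
def ConstantDensity (A : Set ℕ) (c δ : ℝ) (X p j : ℕ) : Prop :=
  ∃ lam : ℝ, c ≤ lam ∧ lam ≤ 1 / c ∧ ∀ s t : ℕ, s ≤ 2 ^ j → t ≤ 2 ^ j →
    |(N A (p - s) (p + t) : ℝ) - lam * (s + t) / Real.log X ^ 4| ≤ δ * 2 ^ j / Real.log X ^ 4

open Classical in
/-- the number of the scales `(log X) ^ 4 ≤ 2 ^ j ≤ Y` without this property -/
noncomputable def badScales (A : Set ℕ) (c δ : ℝ) (X Y p : ℕ) : ℕ :=
  ((range (Nat.log 2 Y + 1)).filter (fun j => Real.log X ^ 4 ≤ (2 : ℝ) ^ j ∧ ¬ ConstantDensity A c δ X p j)).card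

/-- The elements of `A` that are not regular points of `A`. -/
def Irregular (A : Set ℕ) (c δ : ℝ) (B X Y : ℕ) : Set ℕ :=
  {p | p ∈ A ∧ ¬ (RightOrder A c X Y p ∧ badScales A c δ X Y p ≤ B)}

open Classical in
lemma N_eq : N = Pool.Agent.Results.MP_6a20cc_nt.RegularPoints.N := by
  funext A u v
  unfold N Pool.Agent.Results.MP_6a20cc_nt.RegularPoints.N
  rfl

open Classical in
lemma N_le (A A' : Set ℕ) (u v : ℕ) (h : ∀ p, u < p → p ≤ v → p ∈ A → p ∈ A') : N A u v ≤ N A' u v := by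
  unfold N
  apply card_le_card
  intro p hp
  rw [mem_filter, mem_Ioc] at hp ⊢
  exact ⟨hp.1, h p hp.1.1 hp.1.2 hp.2⟩

lemma RightOrder_iff (A : Set ℕ) (c : ℝ) (X Y m : ℕ) :
    RightOrder A c X Y m ↔ Pool.Agent.Results.MP_6a20cc_nt.RegularPoints.RightOrder A 4 c X Y m := by
  unfold RightOrder Pool.Agent.Results.MP_6a20cc_nt.RegularPoints.RightOrder
  simp only [N_eq]

lemma ConstantDensity_iff (A : Set ℕ) (c δ : ℝ) (X m j : ℕ) :
    ConstantDensity A c δ X m j ↔ Pool.Agent.Results.MP_6a20cc_nt.RegularPoints.ConstantDensity A 4 c δ X m j := by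
  unfold ConstantDensity Pool.Agent.Results.MP_6a20cc_nt.RegularPoints.ConstantDensity
  simp only [N_eq]

open Classical in
lemma badScales_eq (A : Set ℕ) (c δ : ℝ) (X Y m : ℕ) :
    badScales A c δ X Y m = Pool.Agent.Results.MP_6a20cc_nt.RegularPoints.badScales A 4 c δ X Y m := by
  unfold badScales Pool.Agent.Results.MP_6a20cc_nt.RegularPoints.badScales
  refine congrArg card (Finset.ext fun j => ?_)
  simp only [mem_filter, ConstantDensity_iff]

lemma Irregular_eq (A : Set ℕ) (c δ : ℝ) (B X Y : ℕ) :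
    Irregular A c δ B X Y = Pool.Agent.Results.MP_6a20cc_nt.RegularPoints.Irregular A 4 c δ B X Y := by
  unfold Irregular Pool.Agent.Results.MP_6a20cc_nt.RegularPoints.Irregular
  simp only [RightOrder_iff, badScales_eq]

/-- the slopes -/
def fa : Fin 4 → ℤ := ![1, 1, 1, 1]

/-- the constants -/
def fb : Fin 4 → ℤ := ![-2, 0, 4, 10]

lemma adm : Pool.Agent.Results.MP_6a20cc_nt.RegularPoints.Admissible fa fb := by
  refine ⟨by decide, by decide, ?_⟩
  intro p hp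
  by_cases h5 : p = 5 ∨ p = 11
  · refine ⟨3, ?_⟩
    rcases h5 with rfl | rfl <;> decide
  · refine ⟨1, ?_⟩
    push Not at h5
    have key : ∀ m : ℕ, m.Prime ∨ m = 1 → p ≠ m → ∀ z : ℤ, z.natAbs = m → ¬ (p : ℤ) ∣ z := by
      intro m hm hpm z hz hd
      have h1 : p ∣ m := by
        rw [← hz]
        exact Int.natCast_dvd.1 hd
      rcases hm with hm | rfl
      · exact hpm ((Nat.prime_dvd_prime_iff_eq hp hm).1 h1)
      · exact hp.one_lt.ne' (Nat.dvd_one.1 h1)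
    intro i
    fin_cases i
    · exact key 1 (Or.inr rfl) hp.one_lt.ne' _ (by decide)
    · exact key 1 (Or.inr rfl) hp.one_lt.ne' _ (by decide)
    · exact key 5 (Or.inl (by norm_num)) h5.1 _ (by decide)
    · exact key 11 (Or.inl (by norm_num)) h5.2 _ (by decide)

lemma val_eq (p : ℕ) (hp : 2 < p) :
    (fa 0 * (p : ℤ) + fb 0 = ((p - 2 : ℕ) : ℤ)) ∧ (fa 1 * (p : ℤ) + fb 1 = ((p : ℕ) : ℤ)) ∧
    (fa 2 * (p : ℤ) + fb 2 = ((p + 4 : ℕ) : ℤ)) ∧ (fa 3 * (p : ℤ) + fb 3 = ((p + 10 : ℕ) : ℤ)) := by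
  refine ⟨?_, ?_, ?_, ?_⟩ <;> simp [fa, fb]
  omega

lemma prime_of (n p : ℕ) (h : Admissible n p) (i : Fin 4) : (fa i * (p : ℤ) + fb i).natAbs.Prime := by
  obtain ⟨-, h0, h1, h2, h3, h4⟩ := h
  obtain ⟨e1, e2, e3, e4⟩ := val_eq p h0
  fin_cases i
  · show (fa 0 * (p : ℤ) + fb 0).natAbs.Prime
    rw [e1, Int.natAbs_natCast]; exact h1
  · show (fa 1 * (p : ℤ) + fb 1).natAbs.Prime
    rw [e2, Int.natAbs_natCast]; exact h2
  · show (fa 2 * (p : ℤ) + fb 2).natAbs.Prime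
    rw [e3, Int.natAbs_natCast]; exact h3
  · show (fa 3 * (p : ℤ) + fb 3).natAbs.Prime
    rw [e4, Int.natAbs_natCast]; exact h4

lemma rough_of (r n p : ℕ) (h : Rough r n p) :
    Pool.Agent.Results.MP_6a20cc_nt.RegularPoints.Rough fa fb r p := by
  obtain ⟨-, h0, h1⟩ := h
  obtain ⟨e1, e2, e3, e4⟩ := val_eq p h0
  intro i q hq hd
  apply h1 q hq
  fin_cases i
  · change (q : ℤ) ∣ fa 0 * (p : ℤ) + fb 0 at hd
    rw [e1, Int.natCast_dvd_natCast] at hd; exact Or.inl hd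
  · change (q : ℤ) ∣ fa 1 * (p : ℤ) + fb 1 at hd
    rw [e2, Int.natCast_dvd_natCast] at hd; exact Or.inr (Or.inl hd)
  · change (q : ℤ) ∣ fa 2 * (p : ℤ) + fb 2 at hd
    rw [e3, Int.natCast_dvd_natCast] at hd; exact Or.inr (Or.inr (Or.inl hd))
  · change (q : ℤ) ∣ fa 3 * (p : ℤ) + fb 3 at hd
    rw [e4, Int.natCast_dvd_natCast] at hd; exact Or.inr (Or.inr (Or.inr hd))

/-- conversely, in the window all rough numbers are values -/
lemma of_rough {r n p : ℕ} (h4 : ¬ 4 ∣ n) (h0 : 2 < p) (h1 : 29 * n ≤ p ^ 2) (h2 : p ^ 2 ≤ 30 * n)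
    (h30 : (5 : ℝ) ≤ (p : ℝ) ^ (1 / (r : ℝ)))
    (h : Pool.Agent.Results.MP_6a20cc_nt.RegularPoints.Rough fa fb r p) : Rough r n p := by
  obtain ⟨e1, e2, e3, e4⟩ := val_eq p h0
  have h5 : ∀ q : ℕ, q.Prime → (q ∣ p - 2 ∨ q ∣ p ∨ q ∣ p + 4 ∨ q ∣ p + 10) → (p : ℝ) ^ (1 / (r : ℝ)) < q := by
    intro q hq hd
    rcases hd with hd | hd | hd | hd
    · exact h 0 q hq (by rw [e1]; exact Int.natCast_dvd_natCast.2 hd)
    · exact h 1 q hq (by rw [e2]; exact Int.natCast_dvd_natCast.2 hd)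
    · exact h 2 q hq (by rw [e3]; exact Int.natCast_dvd_natCast.2 hd)
    · exact h 3 q hq (by rw [e4]; exact Int.natCast_dvd_natCast.2 hd)
  have hc : Nat.Coprime p 30 := by
    apply Nat.Coprime.symm
    rw [Nat.coprime_iff_gcd_eq_one]
    by_contra hne
    obtain ⟨q, hq, hq1, hq2⟩ := Nat.Prime.not_coprime_iff_dvd.1 hne
    have h6 := lt_of_le_of_lt h30 (h5 q hq (Or.inr (Or.inl hq2)))
    have h7 : 5 < q := by exact_mod_cast h6
    have h8 : q ∣ 2 * (3 * 5) := by simpa using hq1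
    rcases (Nat.Prime.dvd_mul hq).1 h8 with h9 | h9
    · have := Nat.le_of_dvd (by norm_num) h9
      omega
    · rcases (Nat.Prime.dvd_mul hq).1 h9 with h9 | h9
      · have := Nat.le_of_dvd (by norm_num) h9
        omega
      · have := Nat.le_of_dvd (by norm_num) h9
        omega
  obtain ⟨x, y, z, w, h3, h6⟩ := Pool.Agent.H141R2.FS.rep h4 hc h1 h2
  exact ⟨⟨x, y, z, w, h3, h6.symm⟩, h0, h5⟩

/-- a property of all large `X` holds in the window of all large `n` -/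
lemma transfer {P : ℕ → Prop} (h : ∀ᶠ X : ℕ in atTop, P X) :
    ∀ᶠ n : ℕ in atTop, ∀ X : ℕ, 29 * n ≤ X ^ 2 → P X := by
  obtain ⟨X0, hX0⟩ := eventually_atTop.1 h
  filter_upwards [eventually_ge_atTop (X0 ^ 2)] with n hn X hX
  apply hX0
  have h1 : X0 ^ 2 ≤ X ^ 2 := by omega
  exact (Nat.pow_le_pow_iff_left (by norm_num)).1 h1

lemma win {θ : ℝ} (hθ : 0 < θ) {n X Y : ℕ} (hn : 30 ≤ n) (hX : 29 * n ≤ X ^ 2) (hXY : (X + Y) ^ 2 ≤ 30 * n)
    (hY : (n : ℝ) ^ θ ≤ Y) : (X : ℝ) ^ θ ≤ Y ∧ 2 * Y ≤ X ∧ X ≤ n := by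
  have h0 : X ^ 2 ≤ n ^ 2 := by
    calc X ^ 2 ≤ (X + Y) ^ 2 := Nat.pow_le_pow_left (by omega) 2
      _ ≤ 30 * n := hXY
      _ ≤ n * n := Nat.mul_le_mul_right n hn
      _ = n ^ 2 := by ring
  have h1 : X ≤ n := (Nat.pow_le_pow_iff_left (by norm_num)).1 h0
  refine ⟨?_, ?_, h1⟩
  · refine le_trans ?_ hY
    exact Real.rpow_le_rpow (Nat.cast_nonneg _) (by exact_mod_cast h1) hθ.le
  · by_contra hcon
    push Not at hcon
    nlinarith

lemma cnt {r p : ℕ} (hp : 2 < p) (h : ∀ i, (fa i * (p : ℤ) + fb i).natAbs.primeFactorsList.length ≤ r) :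
    ∀ m ∈ ({p - 2, p, p + 4, p + 10} : Finset ℕ), m.primeFactorsList.length ≤ r := by
  obtain ⟨e1, e2, e3, e4⟩ := val_eq p hp
  intro m hm
  simp only [mem_insert, mem_singleton] at hm
  rcases hm with rfl | rfl | rfl | rfl
  · have := h 0
    rwa [e1, Int.natAbs_natCast] at this
  · have := h 1
    rwa [e2, Int.natAbs_natCast] at this
  · have := h 2
    rwa [e3, Int.natAbs_natCast] at this
  · have := h 3
    rwa [e4, Int.natAbs_natCast] at this

/-- **Regular points of arbitrary sets of values of the linear form which start a prime quadruple.** -/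
theorem result (θ : ℝ) (hθ : 0 < θ) (hθ1 : θ ≤ 1) :
    -- admissible representations
    (∀ ε : ℝ, 0 < ε → ∃ c : ℝ, 0 < c ∧ ∀ δ : ℝ, 0 < δ → ∃ B : ℕ, ∀ᶠ n : ℕ in atTop, ∀ X Y : ℕ,
      29 * n ≤ X ^ 2 → (X + Y) ^ 2 ≤ 30 * n → (n : ℝ) ^ θ ≤ Y → ∀ A : Set ℕ, (∀ p ∈ A, Admissible n p) →
        (N (Irregular A c δ B X Y) X (X + Y) : ℝ) ≤ ε * (Y / Real.log X ^ 4)) ∧
    ∃ r₀ : ℕ, ∀ r : ℕ, r₀ ≤ r →
      -- representations for which the four numbers have no small prime factor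
      (∀ ε : ℝ, 0 < ε → ∃ c : ℝ, 0 < c ∧ ∀ δ : ℝ, 0 < δ → ∃ B : ℕ, ∀ᶠ n : ℕ in atTop, ∀ X Y : ℕ,
        29 * n ≤ X ^ 2 → (X + Y) ^ 2 ≤ 30 * n → (n : ℝ) ^ θ ≤ Y → ∀ A : Set ℕ, (∀ p ∈ A, Rough r n p) →
          (N (Irregular A c δ B X Y) X (X + Y) : ℝ) ≤ ε * (Y / Real.log X ^ 4)) ∧
      -- there are many of them, with a bounded number of prime factors
      ∃ κ : ℝ, 0 < κ ∧ ∀ᶠ n : ℕ in atTop, ¬ 4 ∣ n → ∀ X Y : ℕ, 29 * n ≤ X ^ 2 → (X + Y) ^ 2 ≤ 30 * n →
        (n : ℝ) ^ θ ≤ Y → κ * (Y / Real.log X ^ 4) ≤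
          (N {p | Rough r n p ∧ ∀ m ∈ ({p - 2, p, p + 4, p + 10} : Finset ℕ), m.primeFactorsList.length ≤ r}
            X (X + Y) : ℝ) := by
  classical
  obtain ⟨h1, r₀, h2⟩ := Pool.Agent.Results.MP_6a20cc_nt.RegularPoints.result 4 (by norm_num) fa fb adm θ hθ hθ1
  refine ⟨?_, max r₀ 1, ?_⟩
  · intro ε hε
    obtain ⟨c, hc, h3⟩ := h1 ε hε
    refine ⟨c, hc, fun δ hδ => ?_⟩
    obtain ⟨B, hB⟩ := h3 δ hδ
    refine ⟨B, ?_⟩
    filter_upwards [transfer hB, eventually_ge_atTop 30] with n hn hn30 X Y hX hXY hY A hA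
    obtain ⟨w1, w2, w3⟩ := win hθ hn30 hX hXY hY
    rw [N_eq, Irregular_eq]
    exact hn X hX Y w1 w2 A fun p hp i => prime_of n p (hA p hp) i
  · intro r hr
    obtain ⟨h3, κ, hκ, h4⟩ := h2 r ((le_max_left _ _).trans hr)
    have hr1 : 1 ≤ r := (le_max_right _ _).trans hr
    refine ⟨?_, κ, hκ, ?_⟩
    · intro ε hε
      obtain ⟨c, hc, h5⟩ := h3 ε hε
      refine ⟨c, hc, fun δ hδ => ?_⟩
      obtain ⟨B, hB⟩ := h5 δ hδ
      refine ⟨B, ?_⟩
      filter_upwards [transfer hB, eventually_ge_atTop 30] with n hn hn30 X Y hX hXY hY A hA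
      obtain ⟨w1, w2, w3⟩ := win hθ hn30 hX hXY hY
      rw [N_eq, Irregular_eq]
      exact hn X hX Y w1 w2 A fun p hp => rough_of r n p (hA p hp)
    · have hbig : ∀ᶠ X : ℕ in atTop, (5 : ℝ) ≤ (X : ℝ) ^ (1 / (r : ℝ)) := by
        have ht : Tendsto (fun X : ℕ => (X : ℝ) ^ (1 / (r : ℝ))) atTop atTop :=
          (tendsto_rpow_atTop (by positivity)).comp tendsto_natCast_atTop_atTop
        exact ht.eventually_ge_atTop 5
      filter_upwards [transfer h4, transfer hbig, eventually_ge_atTop 30] with n hn hb hn30 hn4 X Y hX hXY hY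
      obtain ⟨w1, w2, w3⟩ := win hθ hn30 hX hXY hY
      refine (hn X hX Y w1 (by omega)).trans ?_
      rw [← N_eq, Nat.cast_le]
      apply N_le
      rintro p a1 a2 ⟨a3, a4⟩
      have hp : 2 < p := by nlinarith
      have e1 : 29 * n ≤ p ^ 2 := hX.trans (Nat.pow_le_pow_left a1.le 2)
      have e2 : p ^ 2 ≤ 30 * n := (Nat.pow_le_pow_left a2 2).trans hXY
      exact ⟨of_rough hn4 hp e1 e2 (hb p e1) a3, cnt hp a4⟩

end Pool.Agent.Results.MP_40574a_nt.RegularPoints
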