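import Pool.Agent.Q234.StR
import Pool.Agent.H141R2.FS.Main1

/-!
# Four squares and prime quadruples `p, p + h_0, p + h_1, p + h_2` in arbitrary large sets, for almost all triples

Q1 asks for a representation `n = x² + y² + z² + w²` for which `p = x + 2 y + 5 z` and `p - 2`, `p + 4`, `p + 10` are
primes. The shifts `-2, 4, 10` are replaced here by almost all triples `(h_0, h_1, h_2)` of multiples of a small
primorial `M`, the product of the primes up to `y`, where `y` is of the order of magnitude `log log n`, so that `M`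
is a power of `log n`.

For every large `n` not divisible by `4` and EVERY set `S` of at least `X / log ^ A X` primes `p` with
`29 n ≤ p² ≤ 30 n`, `X = ⌊√(30 n)⌋`, and for almost all triples, the expected number of elements `p` of `S` are
values of `x + 2 y + 5 z` at a representation of `n` with `p + h_0`, `p + h_1`, `p + h_2` simultaneously prime.
-/

set_option autoImplicit false

open Finset

namespace Pool.Agent.Results.MP_40574a_nt.ShiftTriples

/-- `p` is the value of `x + 2 y + 5 z` at a representation of `n` as a sum of four squares of natural numbers. -/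
def Val (n p : ℕ) : Prop :=
  ∃ x y z w : ℕ, n = x ^ 2 + y ^ 2 + z ^ 2 + w ^ 2 ∧ p = x + 2 * y + 5 * z

/-- The product of `1 - 1/q` over the primes `q ≤ y`. -/
noncomputable def V (y : ℕ) : ℝ := ∏ q ∈ (Icc 1 y).filter Nat.Prime, (1 - 1 / (q : ℝ))

open Classical in
/-- The `p` in `S` which are values at a representation of `n` such that all `p + h_i` are prime. -/
noncomputable def good (n : ℕ) (S : Finset ℕ) (h : Fin 3 → ℕ) : Finset ℕ :=
  S.filter (fun p => Val n p ∧ ∀ i, (p + h i).Prime)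

open Classical in
/-- For all `A`, `C` and `0 < ε ≤ 1` there is `K₀` such that for every `K₁` and all large `n` with `4 ∤ n`, with
`X = ⌊√(30 n)⌋`, every `y` between `K₀ log log X` and `K₁ log log X`, `M` the product of the primes `≤ y`, and all
windows `(g₀ i, g₀ i + G i]` with `M (g₀ i + G i) ≤ X`, `G i ≥ X / (M log ^ C X)`, `i < 3`: for every set `S` of at
least `X / log ^ A X` primes `p` with `29 n ≤ p² ≤ 30 n`, for all but at most `ε (G 0) (G 1) (G 2)` of the vectors
`g`, `1 ≤ g i ≤ G i`, at least `(1 - ε) |S| / (V y log X) ^ 3` elements `p` of `S` are values at a representation of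
`n` for which the three numbers `p + M (g₀ i + g i)` are prime. -/
theorem result : ∀ (A C : ℕ) (ε : ℝ), 0 < ε → ε ≤ 1 → ∃ K₀ : ℕ, ∀ K₁ : ℕ, ∃ n₀ : ℕ, ∀ n : ℕ, n₀ ≤ n → ¬ 4 ∣ n →
    ∀ X : ℕ, X = Nat.sqrt (30 * n) →
    ∀ y : ℕ, K₀ * Real.log (Real.log X) ≤ y → y ≤ K₁ * Real.log (Real.log X) →
    ∀ g₀ G : Fin 3 → ℕ, (∀ i, primorial y * (g₀ i + G i) ≤ X) →
      (∀ i, (X : ℝ) ≤ primorial y * G i * Real.log X ^ C) →
    ∀ S : Finset ℕ, (∀ p ∈ S, p.Prime ∧ 29 * n ≤ p ^ 2 ∧ p ^ 2 ≤ 30 * n) → (X : ℝ) ≤ S.card * Real.log X ^ A →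
      (((Fintype.piFinset fun i => Icc 1 (G i)).filter (fun g =>
        ((good n S (fun i => primorial y * (g₀ i + g i))).card : ℝ) <
        (1 - ε) * (S.card / (V y * Real.log X) ^ 3))).card : ℝ) ≤ ε * (G 0 * G 1 * G 2) := by
  classical
  intro A C ε hε hε1
  obtain ⟨K₀', hK₀'⟩ := Pool.Agent.Q234.StR.stepR 0 C 3 (fun _ => 1) (fun _ => Or.inl rfl) A ε hε hε1
  refine ⟨K₀', fun K₁ => ?_⟩
  obtain ⟨n2', hn2'⟩ := hK₀' K₁
  refine ⟨max 30 (n2' ^ 2), fun n hn h4 X hX y hy1 hy2 g₀ G hg1 hg2 S hS hSc => ?_⟩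
  have hn30 : 30 ≤ n := (le_max_left _ _).trans hn
  have b2' : n2' ≤ X := by
    rw [hX, Nat.le_sqrt, ← pow_two]
    have := (le_max_right _ _).trans hn
    omega
  have h1 := hn2' X b2' y hy1 hy2 S hSc (fun _ p => p) (fun _ => Function.injective_id.injOn) (by
    intro i p hp
    obtain ⟨a1, a2, a3⟩ := hS p hp
    refine ⟨a1, ?_⟩
    rw [pow_zero, mul_one]
    have : p ≤ X := by
      rw [hX, Nat.le_sqrt, ← pow_two]
      exact a3
    exact_mod_cast this) g₀ G (fun i => by rw [pow_one]; exact hg1 i) (fun i => by rw [pow_one]; exact hg2 i)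
  rw [Fin.prod_univ_three, Fin.prod_univ_three] at h1
  refine le_trans (le_of_eq ?_) h1
  congr 2
  apply filter_congr
  intro g _
  have e1 : S.filter (fun j => ∀ i, (j ^ 1 + primorial y * (g₀ i + g i)).Prime) =
      good n S (fun i => primorial y * (g₀ i + g i)) := by
    unfold good
    apply filter_congr
    intro p hp
    simp only [pow_one]
    refine ⟨fun h => ⟨?_, h⟩, fun h => h.2⟩
    obtain ⟨a1, a2, a3⟩ := hS p hp
    have hc : Nat.Coprime p 30 := by
      rw [Nat.Prime.coprime_iff_not_dvd a1]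
      intro hd
      have h5 : p ≤ 30 := Nat.le_of_dvd (by norm_num) hd
      have h6 : p ∣ 2 * (3 * 5) := by simpa using hd
      have h7 : p ≤ 5 := by
        rcases (Nat.Prime.dvd_mul a1).1 h6 with h9 | h9
        · have := Nat.le_of_dvd (by norm_num) h9
          omega
        · rcases (Nat.Prime.dvd_mul a1).1 h9 with h9 | h9
          · have := Nat.le_of_dvd (by norm_num) h9
            omega
          · have := Nat.le_of_dvd (by norm_num) h9
            omega
      nlinarith
    obtain ⟨x, y, z, w, b1, b2⟩ := Pool.Agent.H141R2.FS.rep h4 hc a2 a3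
    exact ⟨x, y, z, w, b1, b2.symm⟩
  have e2 : (Pool.Agent.H373R2.T7.Vz y * (((1 : ℕ) : ℝ) * Real.log X)) * (Pool.Agent.H373R2.T7.Vz y * (((1 : ℕ) : ℝ) * Real.log X)) *
      (Pool.Agent.H373R2.T7.Vz y * (((1 : ℕ) : ℝ) * Real.log X)) = (V y * Real.log X) ^ 3 := by
    have : V y = Pool.Agent.H373R2.T7.Vz y := rfl
    rw [this]
    push_cast
    ring
  rw [e1, e2]

end Pool.Agent.Results.MP_40574a_nt.ShiftTriples
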